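import Mathlib

set_option autoImplicit false

/-!
# The number of edges and the maximum forcing number

Let `M` be a perfect matching of a graph `G` on `2n` vertices, and let `x_1, ..., x_n` be the
endpoints of smaller degree of the edges of `M`.  Going greedily through the edges of `M` in order
of the degrees of the `x_i` one finds a set `T` of at least `∑ 1 / deg x_i` edges of `M`, which can
be ordered in such a way that `x_i` is adjacent to no endpoint of a later edge of `T`, except for
its own partner.  Then `M \ T` is a forcing set.  As `∑ deg x_i ≤ e(G)`, we have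
`∑ 1 / deg x_i ≥ n² / e(G)`.
-/

namespace Pool.Agent.Results.MP_f5b231_co.EdgeBound

open Finset

universe u

variable {V : Type u}

/-- `S` is a forcing set of the perfect matching `M` of `G`: `S` is a set of edges of `M` and `M` is
the only perfect matching of `G` which contains `S`. -/
def IsForcingSet (G : SimpleGraph V) (M : G.Subgraph) (S : Finset (Sym2 V)) : Prop :=
  (S : Set (Sym2 V)) ⊆ M.edgeSet ∧
    ∀ M' : G.Subgraph, M'.IsPerfectMatching → (S : Set (Sym2 V)) ⊆ M'.edgeSet → M' = M

/-- The forcing number of the perfect matching `M`: the least size of a forcing set of `M`. -/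
noncomputable def forcingNumber (G : SimpleGraph V) (M : G.Subgraph) : ℕ :=
  sInf {k | ∃ S : Finset (Sym2 V), IsForcingSet G M S ∧ S.card = k}

/-- The maximum forcing number of `G`: the largest forcing number of a perfect matching of `G`. -/
noncomputable def maxForcingNumber (G : SimpleGraph V) : ℕ :=
  sSup {k | ∃ M : G.Subgraph, M.IsPerfectMatching ∧ forcingNumber G M = k}

lemma ext_of_partner {G : SimpleGraph V} {M M' : G.Subgraph} (hM : M.IsPerfectMatching)
    (hM' : M'.IsPerfectMatching) (p : V → V) (hp : ∀ v, M.Adj v (p v))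
    (hp' : ∀ v, M'.Adj v (p v)) : M' = M := by
  apply SimpleGraph.Subgraph.ext
  · rw [SimpleGraph.Subgraph.isSpanning_iff.1 hM.2, SimpleGraph.Subgraph.isSpanning_iff.1 hM'.2]
  · funext v w
    apply propext
    constructor
    · intro h
      rw [hM'.1.eq_of_adj_left h (hp' v)]
      exact hp v
    · intro h
      rw [hM.1.eq_of_adj_left h (hp v)]
      exact hp' v

lemma peel [Fintype V] [DecidableEq V] (G : SimpleGraph V) [DecidableRel G.Adj] (M : G.Subgraph)
    (hM : M.IsPerfectMatching) (p : V → V) (hp : ∀ v, M.Adj v (p v)) (hpp : ∀ v, p (p v) = v) :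
    ∀ (m : ℕ) (W : Finset V), W.card = m → (∀ x ∈ W, p x ∉ W) →
      ∃ T ⊆ W, (∑ x ∈ W, (1 : ℝ) / G.degree x) ≤ T.card ∧
        ∀ M' : G.Subgraph, M'.IsPerfectMatching →
          (∀ v, v ∉ T → p v ∉ T → M'.Adj v (p v)) → M' = M := by
  intro m
  induction m using Nat.strong_induction_on with
  | _ m ih =>
  intro W hW hpW
  rcases W.eq_empty_or_nonempty with rfl | hne
  · refine ⟨∅, Finset.Subset.refl _, by simp, fun M' hM' h => ?_⟩
    exact ext_of_partner hM hM' p hp (fun v => h v (by simp) (by simp))
  · obtain ⟨v, hvW, hmin⟩ := W.exists_min_image (fun x => G.degree x) hne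
    have hdeg : 0 < G.degree v := by
      rw [SimpleGraph.degree_pos_iff_exists_adj]
      exact ⟨p v, (hp v).adj_sub⟩
    set N := W.filter (fun x => G.Adj v x ∨ G.Adj v (p x)) with hN
    have hvN : v ∈ N := by
      rw [hN, mem_filter]
      exact ⟨hvW, Or.inr (hp v).adj_sub⟩
    have hNW : N ⊆ W := filter_subset _ _
    have hcardN : N.card ≤ G.degree v := by
      rw [← SimpleGraph.card_neighborFinset_eq_degree]
      refine Finset.card_le_card_of_injOn (fun x => if G.Adj v (p x) then p x else x) ?_ ?_
      · intro x hx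
        rw [Finset.mem_coe, hN, mem_filter] at hx
        rw [Finset.mem_coe, SimpleGraph.mem_neighborFinset]
        dsimp only
        split_ifs with h
        · exact h
        · exact hx.2.resolve_right h
      · intro x hx y hy hxy
        have hx1 : x ∈ W := hNW hx
        have hy1 : y ∈ W := hNW hy
        dsimp only at hxy
        split_ifs at hxy with h1 h2 h2
        · rw [← hpp x, hxy, hpp y]
        · exact absurd (hxy ▸ hy1) (hpW x hx1)
        · exact absurd (hxy ▸ hx1) (hpW y hy1)
        · exact hxy
    have hlt : (W \ N).card < m := by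
      rw [← hW]
      apply Finset.card_lt_card
      rw [Finset.ssubset_iff_of_subset Finset.sdiff_subset]
      exact ⟨v, hvW, fun h => (Finset.mem_sdiff.1 h).2 hvN⟩
    obtain ⟨T', hT'W, hT'sum, hT'⟩ := ih _ hlt (W \ N) rfl (fun x hx hpx =>
      hpW x (Finset.mem_sdiff.1 hx).1 (Finset.mem_sdiff.1 hpx).1)
    have hvT' : v ∉ T' := fun h => (Finset.mem_sdiff.1 (hT'W h)).2 hvN
    refine ⟨insert v T', ?_, ?_, ?_⟩
    · intro x hx
      rcases Finset.mem_insert.1 hx with rfl | hx
      · exact hvW
      · exact (Finset.mem_sdiff.1 (hT'W hx)).1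
    · rw [Finset.card_insert_of_notMem hvT', ← Finset.sum_sdiff hNW]
      have h1 : ∑ x ∈ N, (1 : ℝ) / G.degree x ≤ 1 := by
        have hdv : (0 : ℝ) < G.degree v := by exact_mod_cast hdeg
        calc ∑ x ∈ N, (1 : ℝ) / G.degree x ≤ ∑ _x ∈ N, (1 : ℝ) / G.degree v := by
              apply Finset.sum_le_sum
              intro x hx
              apply one_div_le_one_div_of_le hdv
              exact_mod_cast hmin x (hNW hx)
          _ = N.card * ((1 : ℝ) / G.degree v) := by rw [Finset.sum_const, nsmul_eq_mul]
          _ ≤ G.degree v * ((1 : ℝ) / G.degree v) := by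
              apply mul_le_mul_of_nonneg_right
              · exact_mod_cast hcardN
              · positivity
          _ = 1 := by field_simp
      push_cast
      linarith
    · intro M' hM' h
      have key : M'.Adj v (p v) := by
        obtain ⟨y, hy, -⟩ := hM'.1 (hM'.2 v)
        by_cases hyp : y = p v
        · rw [← hyp]; exact hy
        exfalso
        have hGy : G.Adj v y := hy.adj_sub
        have hyv : y ≠ v := hGy.ne'
        have hyT : y ∉ insert v T' := by
          intro hmem
          rcases Finset.mem_insert.1 hmem with h1 | h1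
          · exact hyv h1
          · have h2 := Finset.mem_sdiff.1 (hT'W h1)
            apply h2.2
            rw [hN, mem_filter]
            exact ⟨h2.1, Or.inl hGy⟩
        have hpyT : p y ∉ insert v T' := by
          intro hmem
          rcases Finset.mem_insert.1 hmem with h1 | h1
          · apply hyp
            rw [← h1, hpp]
          · have h2 := Finset.mem_sdiff.1 (hT'W h1)
            apply h2.2
            rw [hN, mem_filter]
            refine ⟨h2.1, Or.inr ?_⟩
            rw [hpp]
            exact hGy
        have h3 := h y hyT hpyT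
        have h4 : p y = v := hM'.1.eq_of_adj_left h3 hy.symm
        apply hyp
        rw [← h4, hpp]
      apply hT' M' hM'
      intro u hu hpu
      by_cases h1 : u = v
      · rw [h1]; exact key
      by_cases h2 : p u = v
      · rw [h2]
        have h3 : u = p v := by rw [← h2, hpp]
        rw [h3]
        exact key.symm
      · apply h
        · intro hmem
          rcases Finset.mem_insert.1 hmem with h3 | h3
          · exact h1 h3
          · exact hu h3
        · intro hmem
          rcases Finset.mem_insert.1 hmem with h3 | h3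
          · exact h2 h3
          · exact hpu h3

/-- For every perfect matching `M`: the forcing number is at most `n - n² / e(G)`. -/
lemma forcing_le [Fintype V] (G : SimpleGraph V) (n : ℕ) (hn : 1 ≤ n)
    (hV : Fintype.card V = 2 * n) (M : G.Subgraph) (hM : M.IsPerfectMatching) :
    0 < (G.edgeSet.ncard : ℝ) ∧
      (n : ℝ) ^ 2 / G.edgeSet.ncard ≤ (n : ℝ) - forcingNumber G M := by
  classical
  have hex : ∀ v, ∃ w, M.Adj v w := fun v => by
    obtain ⟨w, hw, -⟩ := hM.1 (hM.2 v)
    exact ⟨w, hw⟩
  choose p hp using hex
  have hpp : ∀ v, p (p v) = v := fun v =>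
    hM.1.eq_of_adj_left (hp (p v)) (hp v).symm
  have hpne : ∀ v, p v ≠ v := fun v => (hp v).adj_sub.ne'
  let e := Fintype.equivFin V
  -- representatives of smaller degree
  let X : Finset V := univ.filter (fun v => G.degree v < G.degree (p v) ∨
    (G.degree v = G.degree (p v) ∧ e v < e (p v)))
  have hX : ∀ v, v ∈ X ↔ (G.degree v < G.degree (p v) ∨
    (G.degree v = G.degree (p v) ∧ e v < e (p v))) := fun v => by simp [X]
  have hXp : ∀ v, v ∈ X ↔ p v ∉ X := by
    intro v
    rw [hX, hX, hpp]
    have hne : e v ≠ e (p v) := fun h => hpne v (e.injective h).symm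
    rcases lt_trichotomy (G.degree v) (G.degree (p v)) with h | h | h
    · constructor
      · rintro - (h1 | h1)
        · omega
        · omega
      · intro; exact Or.inl h
    · constructor
      · rintro (h1 | h1) (h2 | h2)
        · omega
        · omega
        · omega
        · exact absurd h1.2 (not_lt.2 h2.2.le)
      · intro h1
        right
        refine ⟨h, ?_⟩
        by_contra h2
        apply h1
        right
        exact ⟨h.symm, lt_of_le_of_ne (not_lt.1 h2) hne.symm⟩
    · constructor
      · rintro (h1 | h1)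
        · omega
        · omega
      · intro h1
        exact absurd (Or.inl h) h1
  have hXdeg : ∀ x ∈ X, G.degree x ≤ G.degree (p x) := by
    intro x hx
    rcases (hX x).1 hx with h | h
    · exact h.le
    · exact h.1.le
  have hsumcompl : ∀ f : V → ℕ, ∑ v, f v = ∑ x ∈ X, (f x + f (p x)) := by
    intro f
    rw [Finset.sum_add_distrib, ← Finset.sum_add_sum_compl X f]
    congr 1
    refine Finset.sum_nbij' p p ?_ ?_ ?_ ?_ ?_
    · intro v hv
      rw [Finset.mem_compl] at hv
      by_contra h
      exact hv ((hXp v).2 h)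
    · intro v hv
      rw [Finset.mem_compl]
      exact (hXp v).1 hv
    · intro v _; exact hpp v
    · intro v _; exact hpp v
    · intro v _
      rw [hpp]
  have hcardX : X.card = n := by
    have h1 := hsumcompl (fun _ => 1)
    simp only [Finset.sum_const, smul_eq_mul, mul_one, Finset.card_univ] at h1
    omega
  have hE : (G.edgeFinset.card : ℕ) = G.edgeSet.ncard := by
    rw [← SimpleGraph.coe_edgeFinset, Set.ncard_coe_finset]
  have hsumX : ∑ x ∈ X, G.degree x ≤ G.edgeSet.ncard := by
    have h1 := hsumcompl (fun v => G.degree v)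
    rw [SimpleGraph.sum_degrees_eq_twice_card_edges, hE] at h1
    have h2 : ∑ x ∈ X, (G.degree x + G.degree x) ≤ ∑ x ∈ X, (G.degree x + G.degree (p x)) :=
      Finset.sum_le_sum (fun x hx => Nat.add_le_add_left (hXdeg x hx) _)
    rw [Finset.sum_add_distrib] at h2
    omega
  have hdegpos : ∀ v, 0 < G.degree v := by
    intro v
    rw [SimpleGraph.degree_pos_iff_exists_adj]
    exact ⟨p v, (hp v).adj_sub⟩
  have hEpos : 0 < (G.edgeSet.ncard : ℝ) := by
    have h1 : X.card ≤ ∑ x ∈ X, G.degree x := by
      rw [Finset.card_eq_sum_ones]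
      exact Finset.sum_le_sum (fun x _ => hdegpos x)
    have h2 : 0 < G.edgeSet.ncard := by omega
    exact_mod_cast h2
  refine ⟨hEpos, ?_⟩
  obtain ⟨T, hTX, hTsum, hT⟩ := peel G M hM p hp hpp X.card X rfl (fun x hx => (hXp x).1 hx)
  -- Cauchy-Schwarz
  have hCS : (n : ℝ) ^ 2 ≤ (∑ x ∈ X, (1 : ℝ) / G.degree x) * (∑ x ∈ X, (G.degree x : ℝ)) := by
    have h1 := Finset.sum_sq_le_sum_mul_sum_of_sq_le_mul X (r := fun _ => (1 : ℝ))
      (f := fun x => (1 : ℝ) / G.degree x) (g := fun x => (G.degree x : ℝ))
      (fun x _ => by positivity) (fun x _ => by positivity) (fun x _ => by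
        have : (0 : ℝ) < G.degree x := by exact_mod_cast hdegpos x
        field_simp
        norm_num)
    rw [Finset.sum_const, hcardX] at h1
    simpa using h1
  have hTlow : (n : ℝ) ^ 2 / G.edgeSet.ncard ≤ T.card := by
    rw [div_le_iff₀ hEpos]
    calc (n : ℝ) ^ 2 ≤ (∑ x ∈ X, (1 : ℝ) / G.degree x) * (∑ x ∈ X, (G.degree x : ℝ)) := hCS
      _ ≤ T.card * G.edgeSet.ncard := by
        apply mul_le_mul hTsum _ _ (by positivity)
        · exact_mod_cast hsumX
        · apply Finset.sum_nonneg
          intro x _
          positivity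
  -- the forcing set
  have hforce : forcingNumber G M ≤ n - T.card := by
    have hS : IsForcingSet G M ((X \ T).image (fun x => s(x, p x))) := by
      constructor
      · intro s hs
        rw [Finset.mem_coe, Finset.mem_image] at hs
        obtain ⟨x, -, rfl⟩ := hs
        exact hp x
      · intro M' hM' hsub
        apply hT M' hM'
        intro v hv hpv
        by_cases hvX : v ∈ X
        · have h1 : s(v, p v) ∈ ((X \ T).image (fun x => s(x, p x))) :=
            Finset.mem_image_of_mem _ (Finset.mem_sdiff.2 ⟨hvX, hv⟩)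
          exact hsub (Finset.mem_coe.2 h1)
        · have hpvX : p v ∈ X := by
            by_contra h
            exact hvX ((hXp v).2 h)
          have h1 : s(p v, p (p v)) ∈ ((X \ T).image (fun x => s(x, p x))) :=
            Finset.mem_image_of_mem (fun x => s(x, p x)) (Finset.mem_sdiff.2 ⟨hpvX, hpv⟩)
          have h2 : M'.Adj (p v) (p (p v)) := hsub (Finset.mem_coe.2 h1)
          rw [hpp] at h2
          exact h2.symm
    have h1 : forcingNumber G M ≤ ((X \ T).image (fun x => s(x, p x))).card :=
      Nat.sInf_le ⟨_, hS, rfl⟩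
    have h2 : ((X \ T).image (fun x => s(x, p x))).card ≤ (X \ T).card := Finset.card_image_le
    rw [Finset.card_sdiff_of_subset hTX, hcardX] at h2
    omega
  have hTn : T.card ≤ n := by
    rw [← hcardX]; exact Finset.card_le_card hTX
  have h3 : (forcingNumber G M : ℝ) ≤ (n : ℝ) - T.card := by
    have : ((forcingNumber G M : ℕ) : ℝ) ≤ ((n - T.card : ℕ) : ℝ) := by exact_mod_cast hforce
    rwa [Nat.cast_sub hTn] at this
  linarith

/-- Every graph `G` on `2n` vertices with a perfect matching satisfies `F(G) ≤ n - 1` and
`e(G) ≥ n² / (n - F(G))`. -/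
theorem result {V : Type u} [Fintype V] (G : SimpleGraph V) (n : ℕ) (hn : 1 ≤ n)
    (hV : Fintype.card V = 2 * n) (hG : ∃ M : G.Subgraph, M.IsPerfectMatching) :
    maxForcingNumber G < n ∧
      (n : ℝ) ^ 2 / ((n : ℝ) - maxForcingNumber G) ≤ (G.edgeSet.ncard : ℝ) := by
  have hne : {k | ∃ M : G.Subgraph, M.IsPerfectMatching ∧ forcingNumber G M = k}.Nonempty := by
    obtain ⟨M, hM⟩ := hG
    exact ⟨_, M, hM, rfl⟩
  have hlt : ∀ M : G.Subgraph, M.IsPerfectMatching → forcingNumber G M < n := by
    intro M hM
    obtain ⟨h1, h2⟩ := forcing_le G n hn hV M hM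
    have h3 : (0 : ℝ) < (n : ℝ) ^ 2 / G.edgeSet.ncard := by
      apply div_pos _ h1
      have : (0 : ℝ) < n := by exact_mod_cast hn
      positivity
    have h4 : (forcingNumber G M : ℝ) < n := by linarith
    exact_mod_cast h4
  have hbdd : BddAbove {k | ∃ M : G.Subgraph, M.IsPerfectMatching ∧ forcingNumber G M = k} := by
    refine ⟨n, ?_⟩
    rintro k ⟨M, hM, rfl⟩
    exact (hlt M hM).le
  obtain ⟨M, hM, hMF⟩ := Nat.sSup_mem hne hbdd
  change forcingNumber G M = maxForcingNumber G at hMF
  rw [← hMF]
  obtain ⟨h1, h2⟩ := forcing_le G n hn hV M hM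
  refine ⟨hlt M hM, ?_⟩
  have hpos : (0 : ℝ) < (n : ℝ) - forcingNumber G M := by
    have := hlt M hM
    have : (forcingNumber G M : ℝ) < n := by exact_mod_cast this
    linarith
  rw [div_le_iff₀ hpos, mul_comm, ← div_le_iff₀ h1]
  exact h2

end Pool.Agent.Results.MP_f5b231_co.EdgeBound
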